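import Mathlib
import Pool.Agent.UL7.Stmts

/-!
# Squad UL7: row MNP (a linear functional is monotone on half of the boundary curve)
-/

set_option autoImplicit false

namespace Pool.Agent.UL7.H95

open MeasureTheory Set Pool.Agent.UL3 Pool.Agent.UL4 Pool.Agent.UL5 Pool.Agent.UL7

theorem cr_comb (u x y : ℝ × ℝ) (A B : ℝ) : cr u (A • x + B • y) = A * cr u x + B * cr u y := by
  unfold cr
  simp only [Prod.fst_add, Prod.snd_add, Prod.smul_fst, Prod.smul_snd, smul_eq_mul]
  ring

theorem cr_neg (u x : ℝ × ℝ) : cr u (-x) = -cr u x := by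
  unfold cr
  simp only [Prod.fst_neg, Prod.snd_neg]
  ring

/-- a boundary point between two boundary points -/
theorem between {M : Set (ℝ × ℝ)} {P : ℝ → ℝ × ℝ} (hM : PB M) (hP : Bd M P) {α β γ : ℝ}
    (h1 : α < β) (h2 : β < γ) (h3 : γ - α < Real.pi) :
    ∃ A B : ℝ, 0 < A ∧ 0 < B ∧ 1 ≤ A + B ∧ P β = A • P α + B • P γ := by
  obtain ⟨ra, hra, hPa⟩ := hP.ray α
  obtain ⟨rb, hrb, hPb⟩ := hP.ray β
  obtain ⟨rc, hrc, hPc⟩ := hP.ray γ
  have s1 : 0 < Real.sin (γ - β) := Real.sin_pos_of_pos_of_lt_pi (by linarith) (by linarith)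
  have s2 : 0 < Real.sin (β - α) := Real.sin_pos_of_pos_of_lt_pi (by linarith) (by linarith)
  have s3 : 0 < Real.sin (γ - α) := Real.sin_pos_of_pos_of_lt_pi (by linarith) h3
  have hA : 0 < rb * Real.sin (γ - β) / (Real.sin (γ - α) * ra) := by positivity
  have hB : 0 < rb * Real.sin (β - α) / (Real.sin (γ - α) * rc) := by positivity
  have hEq : P β = (rb * Real.sin (γ - β) / (Real.sin (γ - α) * ra)) • P α +
      (rb * Real.sin (β - α) / (Real.sin (γ - α) * rc)) • P γ := by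
    have e1 : rb * Real.sin (γ - β) / (Real.sin (γ - α) * ra) * ra =
        rb * Real.sin (γ - β) / Real.sin (γ - α) := by
      field_simp
    have e2 : rb * Real.sin (β - α) / (Real.sin (γ - α) * rc) * rc =
        rb * Real.sin (β - α) / Real.sin (γ - α) := by
      field_simp
    rw [hPa, hPb, hPc, smul_smul, smul_smul, e1, e2]
    apply Prod.ext
    · simp only [Prod.fst_add, Prod.smul_fst, smul_eq_mul]
      rw [div_mul_eq_mul_div, div_mul_eq_mul_div, ← add_div, eq_div_iff s3.ne',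
        Real.sin_sub, Real.sin_sub, Real.sin_sub]
      ring
    · simp only [Prod.snd_add, Prod.smul_snd, smul_eq_mul]
      rw [div_mul_eq_mul_div, div_mul_eq_mul_div, ← add_div, eq_div_iff s3.ne',
        Real.sin_sub, Real.sin_sub, Real.sin_sub]
      ring
  refine ⟨_, _, hA, hB, ?_, hEq⟩
  by_contra hlt
  rw [not_le] at hlt
  obtain ⟨A, hAd⟩ : ∃ A, A = rb * Real.sin (γ - β) / (Real.sin (γ - α) * ra) := ⟨_, rfl⟩
  obtain ⟨B, hBd⟩ : ∃ B, B = rb * Real.sin (β - α) / (Real.sin (γ - α) * rc) := ⟨_, rfl⟩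
  rw [← hAd, ← hBd] at hEq hlt
  rw [← hAd] at hA
  rw [← hBd] at hB
  have hAB : 0 < A + B := by linarith
  have hq : (A / (A + B)) • P α + (B / (A + B)) • P γ ∈ M :=
    hM.cvx (hP.mem α) (hP.mem γ) (by positivity) (by positivity) (by field_simp)
  have hint := hM.cvx.combo_interior_self_mem_interior hM.zero_mem hq (a := 1 - (A + B))
    (b := A + B) (by linarith) hAB.le (by ring)
  apply hP.bdy β
  have h4 : (1 - (A + B)) • (0 : ℝ × ℝ) + (A + B) • ((A / (A + B)) • P α + (B / (A + B)) • P γ) =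
      P β := by
    rw [smul_zero, zero_add, smul_add, smul_smul, smul_smul, mul_div_cancel₀ _ hAB.ne',
      mul_div_cancel₀ _ hAB.ne', hEq]
  rwa [h4] at hint

theorem mnp : MnpStmt := by
  intro M P hM hP u φ₀ hmax φ ψ h1 h2 h3
  have hanti : ∀ x, cr u (P (x + Real.pi)) = -cr u (P x) := by
    intro x
    rw [hP.anti, cr_neg]
  have hmin : ∀ x, -cr u (P φ₀) ≤ cr u (P x) := by
    intro x
    have := hmax (x + Real.pi)
    rw [hanti] at this
    linarith
  rcases eq_or_lt_of_le h2 with heq | hlt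
  · rw [heq]
  rcases eq_or_lt_of_le h1 with heq | hlt1
  · rw [← heq]
    exact hmax ψ
  rcases eq_or_lt_of_le h3 with heq | hlt3
  · rw [heq, hanti]
    exact hmin φ
  by_cases hpos : 0 ≤ cr u (P ψ)
  · obtain ⟨A, B, hA, hB, hAB, hE⟩ := between hM hP hlt1 hlt (by linarith)
    rw [hE, cr_comb]
    have h5 := mul_nonneg hA.le (sub_nonneg.2 (hmax ψ))
    have h6 := mul_nonneg (sub_nonneg.2 hAB) hpos
    nlinarith
  · rw [not_le] at hpos
    by_cases hpos' : 0 ≤ cr u (P φ)
    · linarith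
    · rw [not_le] at hpos'
      obtain ⟨A, B, hA, hB, hAB, hE⟩ := between hM hP hlt hlt3 (by linarith)
      rw [hE, cr_comb, hanti]
      have h5 := mul_nonneg hB.le (sub_nonneg.2 (hmin φ))
      have h6 := mul_nonneg (sub_nonneg.2 hAB) (neg_nonneg.2 hpos'.le)
      nlinarith

end Pool.Agent.UL7.H95
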